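import Mathlib
import Pool.Agent.H71.Con5

namespace Pool.Agent.Results.MP_b01f87_al.Subgroups

universe u

/-- a strict total order invariant under right multiplication -/
def IsRightOrder {G : Type u} [Group G] (r : G → G → Prop) : Prop :=
  IsStrictTotalOrder G r ∧ ∀ f g h, r f g → r (f * h) (g * h)

/-- there is a strict total order invariant under multiplication on both sides -/
def Orderable (G : Type u) [Group G] : Prop :=
  ∃ r : G → G → Prop, IsStrictTotalOrder G r ∧ ∀ f g h, r f g → r (h * f) (h * g) ∧ r (f * h) (g * h)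

/-- `1 < f < g` implies `f g^m f⁻¹ > g` for some positive `m` -/
def IsConrad {G : Type u} [Group G] (r : G → G → Prop) : Prop :=
  ∀ f g, r 1 f → r f g → ∃ m : ℕ, 0 < m ∧ r g (f * g ^ m * f⁻¹)

/-- every right order is a Conrad right order -/
def AllConrad (G : Type u) [Group G] : Prop :=
  ∀ r : G → G → Prop, IsRightOrder r → IsConrad r

theorem result (G : Type u) [Group G] [Group.IsSolvable G] (hO : Orderable G) (hC : AllConrad G) :
    ∀ H : Subgroup G, AllConrad H := by
  obtain ⟨r, h1, h2⟩ := hO
  have a := fun S (hS : Set.Finite S) => H71.Con.main h1 h2 (fun r a b => hC r ⟨a, b⟩) hS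
  intro H r hr f g
  · obtain ⟨K, k1, k2⟩ := a {f.1, g.1} (Set.toFinite _)
    have : Group.IsNilpotent (K.subgroupOf H) := Subgroup.isNilpotent_of_ker_le_center
      ((H.subtype.comp (K.subgroupOf H).subtype).codRestrict K fun x => x.2)
      ((MonoidHom.ker_eq_bot _ fun x y e =>
        Subtype.ext (Subtype.ext (have := congrArg Subtype.val e; this))).trans_le bot_le)
    exact H71.Con.conrad_of_nil hr.1 hr.2 (K.subgroupOf H) (k1 (.inl rfl)) (k1 (.inr rfl))

end Pool.Agent.Results.MP_b01f87_al.Subgroups
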